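import Pool.Agent.H91.EL.Targets

/-! NDG: good walks are not degenerate (board `elm_modules`). -/

set_option autoImplicit false

namespace Pool.Agent.H67.EL

open Pool.Agent.H83.G Pool.Agent.H91.EL
open scoped RealInnerProductSpace

private theorem norm_add_mul_le {e e' : Z 2} {M : ℝ} (h : ‖e‖ ≤ M) (h' : ‖e'‖ ≤ M) :
    ‖e + e'‖ ≤ 2 * M := (norm_add_le _ _).trans (by linarith)

private theorem w_diff_le {ρ : ℝ} {z z' : Z 2} (h : ‖z‖ ≤ ρ ^ 2) (h' : ‖z'‖ ≤ ρ ^ 2) :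
    |z.2.2 - z'.2.2| ≤ 2 * ρ ^ 2 := by
  have h1 := abs_le.1 ((norm_w_le z).trans h)
  have h2 := abs_le.1 ((norm_w_le z').trans h')
  rw [abs_le]
  constructor <;> linarith [h1.1, h1.2, h2.1, h2.2]

theorem pf_NDG : T_NDG := by
  refine ⟨10000, by norm_num, ?_⟩
  intro ρ D r a η y η' x hρ hD hr hr1 hC hG
  have hρ0 : 0 < ρ := by linarith
  have hD0 : 0 < D := by linarith
  obtain ⟨e, he1, he2, he3, he4, he5⟩ := dec hρ hD hG.e1 hG.l1
  obtain ⟨e', he1', he2', he3', he4', he5'⟩ := dec hρ hD hG.e2 hG.l2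
  obtain ⟨w, hw⟩ : ∃ w : ℝ, w = y.2.2 - a.2.2 := ⟨_, rfl⟩
  obtain ⟨w', hw'⟩ : ∃ w' : ℝ, w' = x.2.2 - y.2.2 := ⟨_, rfl⟩
  rw [← hw] at he1
  rw [← hw'] at he1'
  obtain ⟨u0, hE⟩ : ∃ u0 : Z 2, u0 = e + e' := ⟨_, rfl⟩
  have hEn : ‖u0‖ ≤ 8 * (D * ρ) := by
    rw [hE]
    have := norm_add_mul_le he5 he5'
    linarith
  have hxa : x - a = w • ll η + w' • ll η' + u0 := by
    have h1 : x - a = (y - a) + (x - y) := by abel
    rw [h1, he1, he1', hE]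
    abel
  have hw2 : |w| ≤ 2 * ρ ^ 2 := by rw [hw]; exact w_diff_le hG.ny hG.na
  have hw2' : |w'| ≤ 2 * ρ ^ 2 := by rw [hw']; exact w_diff_le hG.nx hG.ny
  have hwl : r * ρ ^ 2 ≤ |w'| := by rw [hw']; exact hG.w2
  -- the bound of `qB u0 (ll η)`
  have hB : ∀ ζ : E 2, ‖ζ‖ ≤ 3 → |qB (ll ζ) u0| ≤ 360 * (D * ρ) := by
    intro ζ hζ
    refine (abs_qB_le _ _).trans ?_
    have h1 : ‖ll ζ‖ * ‖u0‖ ≤ 9 * (8 * (D * ρ)) :=
      mul_le_mul (norm_ll_le ζ hζ) hEn (norm_nonneg _) (by norm_num)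
    linarith
  have hDρ : 10000 * (D * ρ) ≤ r ^ 4 * ρ ^ 2 := by
    have := mul_le_mul_of_nonneg_right hC hρ0.le
    linarith
  have hang : r ^ 2 ≤ ‖η - η'‖ ^ 2 := pow_le_pow_left₀ hr.le hG.ang 2
  have hang0 : 0 ≤ ‖η - η'‖ ^ 2 := by positivity
  have hr4 : r ^ 4 * ρ ^ 2 ≤ r ^ 3 * ρ ^ 2 := by
    apply mul_le_mul_of_nonneg_right _ (by positivity)
    have h1 : r ^ 4 = r ^ 3 * r := by ring
    rw [h1]
    exact mul_le_of_le_one_right (by positivity) hr1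
  refine ⟨?_, ?_⟩
  · have h1 : qB (x - a) (ll η) = 2 * w' * ‖η - η'‖ ^ 2 + qB (ll η) u0 := by
      rw [hxa, qB_add_left, qB_add_left, qB_smul_left, qB_smul_left, qB_ll_ll η' η,
        show qB (ll η) (ll η) = 0 from qQ_ll η, qB_comm u0, norm_sub_rev η' η]
      ring
    have h2 : 2 * r ^ 3 * ρ ^ 2 ≤ |2 * w' * ‖η - η'‖ ^ 2| := by
      rw [abs_mul, abs_mul, abs_of_nonneg hang0, abs_of_pos (by norm_num : (0 : ℝ) < 2)]
      have h3 : (r * ρ ^ 2) * r ^ 2 ≤ |w'| * ‖η - η'‖ ^ 2 :=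
        mul_le_mul hwl hang (by positivity) (abs_nonneg _)
      linarith
    have h4 := hB η hG.e1
    have h5 : |2 * w' * ‖η - η'‖ ^ 2| - |qB (ll η) u0| ≤ |qB (x - a) (ll η)| := by
      rw [h1]
      have h6 := abs_add_le (2 * w' * ‖η - η'‖ ^ 2 + qB (ll η) u0) (-qB (ll η) u0)
      rw [add_neg_cancel_right, abs_neg] at h6
      linarith
    have h7 : 0 ≤ D * ρ := by positivity
    linarith
  · intro hw1
    rw [← hw] at hw1
    have h1 : qQ (x - a) = 4 * w * w' * ‖η - η'‖ ^ 2 +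
        (2 * (w * qB (ll η) u0 + w' * qB (ll η') u0) + qQ u0) := by
      rw [hxa, qQ_add, qQ_add, qQ_smul, qQ_smul, qQ_ll, qQ_ll, qB_smul_left, qB_smul_right,
        qB_ll_ll, qB_add_left, qB_smul_left, qB_smul_left]
      ring
    have h2 : 4 * (r ^ 4 * ρ ^ 4) ≤ |4 * w * w' * ‖η - η'‖ ^ 2| := by
      rw [abs_mul, abs_mul, abs_mul, abs_of_nonneg hang0, abs_of_pos (by norm_num : (0 : ℝ) < 4)]
      have h3 : (r * ρ ^ 2) * (r * ρ ^ 2) ≤ |w| * |w'| :=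
        mul_le_mul hw1 hwl (by positivity) (abs_nonneg _)
      have h4 : (r * ρ ^ 2) * (r * ρ ^ 2) * r ^ 2 ≤ |w| * |w'| * ‖η - η'‖ ^ 2 :=
        mul_le_mul h3 hang (by positivity) (by positivity)
      linarith
    have hρ2 : 0 ≤ 2 * ρ ^ 2 := by positivity
    have h5 : |w * qB (ll η) u0| ≤ 720 * (D * ρ ^ 3) := by
      rw [abs_mul]
      have := mul_le_mul hw2 (hB η hG.e1) (abs_nonneg _) hρ2
      linarith
    have h6 : |w' * qB (ll η') u0| ≤ 720 * (D * ρ ^ 3) := by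
      rw [abs_mul]
      have := mul_le_mul hw2' (hB η' hG.e2) (abs_nonneg _) hρ2
      linarith
    have hDleρ : D ≤ ρ := by
      have h8 : r ^ 4 ≤ 1 := pow_le_one₀ hr.le hr1
      have h9 : r ^ 4 * ρ ≤ ρ := mul_le_of_le_one_left hρ0.le h8
      linarith
    have h7 : |qQ u0| ≤ 320 * (D * ρ ^ 3) := by
      unfold qQ
      refine (abs_qB_le _ _).trans ?_
      have h8 : ‖u0‖ * ‖u0‖ ≤ (8 * (D * ρ)) * (8 * (D * ρ)) :=
        mul_le_mul hEn hEn (norm_nonneg _) (by positivity)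
      have h9 : D * (D * ρ ^ 2) ≤ ρ * (D * ρ ^ 2) :=
        mul_le_mul_of_nonneg_right hDleρ (by positivity)
      linarith
    have h8 : 10000 * (D * ρ ^ 3) ≤ r ^ 4 * ρ ^ 4 := by
      have := mul_le_mul_of_nonneg_right hDρ (show 0 ≤ ρ ^ 2 by positivity)
      linarith
    have h9 : |2 * (w * qB (ll η) u0 + w' * qB (ll η') u0) + qQ u0| ≤ 3200 * (D * ρ ^ 3) := by
      rw [abs_le] at h5 h6 h7 ⊢
      constructor <;> linarith [h5.1, h5.2, h6.1, h6.2, h7.1, h7.2]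
    have h10 := abs_add_le (4 * w * w' * ‖η - η'‖ ^ 2 +
      (2 * (w * qB (ll η) u0 + w' * qB (ll η') u0) + qQ u0))
      (-(2 * (w * qB (ll η) u0 + w' * qB (ll η') u0) + qQ u0))
    rw [add_neg_cancel_right, abs_neg, ← h1] at h10
    have h11 : 0 ≤ D * ρ ^ 3 := by positivity
    linarith

end Pool.Agent.H67.EL
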