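import Pool.Agent.H91.EL.Targets

/-! QSE: good points on a plank through `x` (board `elm_modules`). -/

set_option autoImplicit false

namespace Pool.Agent.H67.EL

open Pool.Agent.H83.G Pool.Agent.H91.EL
open scoped RealInnerProductSpace

private theorem w_diff_le' {ρ : ℝ} {z z' : Z 2} (h : ‖z‖ ≤ ρ ^ 2) (h' : ‖z'‖ ≤ ρ ^ 2) :
    |z.2.2 - z'.2.2| ≤ 2 * ρ ^ 2 := by
  have h1 := abs_le.1 ((norm_w_le z).trans h)
  have h2 := abs_le.1 ((norm_w_le z').trans h')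
  rw [abs_le]
  constructor <;> linarith [h1.1, h1.2, h2.1, h2.2]

private theorem norm_sub_le' {ρ : ℝ} {z z' : Z 2} (h : ‖z‖ ≤ ρ ^ 2) (h' : ‖z'‖ ≤ ρ ^ 2) :
    ‖z - z'‖ ≤ 2 * ρ ^ 2 := (norm_sub_le _ _).trans (by linarith)

/-- the value at a point of the plank -/
private theorem value {ρ D : ℝ} {η : H83.G.E 2} {a x q : Z 2} (hρ : 1 ≤ ρ) (hD : 1 ≤ D)
    (hDρ : D ≤ ρ) (hη : ‖η‖ ≤ 3) (na : ‖a‖ ≤ ρ ^ 2) (nx : ‖x‖ ≤ ρ ^ 2) (nq : ‖q‖ ≤ ρ ^ 2)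
    (h : ‖Lo η ρ⁻¹ (q - x)‖ ≤ D) :
    |qQ (q - a) - (qQ (x - a) + 2 * (q.2.2 - x.2.2) * qB (x - a) (ll η))| ≤
      200 * (D * ρ ^ 3) := by
  have hρ0 : 0 < ρ := by linarith
  obtain ⟨e, he1, -, -, he4, he5⟩ := dec hρ hD hη h
  obtain ⟨w, hw⟩ : ∃ w : ℝ, w = q.2.2 - x.2.2 := ⟨_, rfl⟩
  rw [← hw] at he1 ⊢
  have hw2 : |w| ≤ 2 * ρ ^ 2 := by rw [hw]; exact w_diff_le' nq nx
  have h1 : qQ (q - a) = qQ (x - a) + 2 * w * qB (x - a) (ll η) +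
      (2 * qB (x - a) e + 2 * (w * qB (ll η) e) + qQ e) := by
    have h2 : q - a = (x - a) + (q - x) := by abel
    rw [h2, he1, qQ_add, qB_add_right, qB_smul_right, qQ_add, qQ_smul, qQ_ll, qB_smul_left]
    ring
  have h3 : |qB (x - a) e| ≤ 40 * (D * ρ ^ 3) := by
    refine (abs_qB_le _ _).trans ?_
    have := mul_le_mul (norm_sub_le' nx na) he5 (norm_nonneg _) (by positivity)
    linarith
  have h4 : |w * qB (ll η) e| ≤ 4 * (D * ρ ^ 2) := by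
    rw [abs_mul]
    have := mul_le_mul hw2 he4 (abs_nonneg _) (by positivity)
    linarith
  have h5 : |qQ e| ≤ 80 * (D * (D * ρ ^ 2)) := by
    unfold qQ
    refine (abs_qB_le _ _).trans ?_
    have := mul_le_mul he5 he5 (norm_nonneg _) (by positivity)
    linarith
  have h6 : D * (D * ρ ^ 2) ≤ ρ * (D * ρ ^ 2) := mul_le_mul_of_nonneg_right hDρ (by positivity)
  have h7 : D * ρ ^ 2 ≤ ρ * (D * ρ ^ 2) := le_mul_of_one_le_left (by positivity) hρ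
  have h8 : |2 * qB (x - a) e + 2 * (w * qB (ll η) e) + qQ e| ≤ 200 * (D * ρ ^ 3) := by
    rw [abs_le] at h3 h4 h5 ⊢
    have h9 : 0 ≤ D * ρ ^ 3 := by positivity
    constructor <;> linarith [h3.1, h3.2, h4.1, h4.2, h5.1, h5.2]
  have h10 : qQ (q - a) - (qQ (x - a) + 2 * w * qB (x - a) (ll η)) =
      2 * qB (x - a) e + 2 * (w * qB (ll η) e) + qQ e := by
    rw [h1]
    ring
  rw [h10]
  exact h8

/-- two values of `w` -/
private theorem window {Q0 b T ρ r L w1 w2 : ℝ} (hρ : 0 < ρ) (hr : 0 < r)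
    (hT : 16 * T = r ^ 4 * ρ ^ 2 * L) (hT2 : 4 * T ≤ r ^ 4 * ρ ^ 4) (hQ : r ^ 4 * ρ ^ 4 ≤ |Q0|)
    (h1 : |Q0 + 2 * w1 * b| ≤ 2 * T) (h2 : |Q0 + 2 * w2 * b| ≤ 2 * T) (hw1 : |w1| ≤ 2 * ρ ^ 2) :
    |w1 - w2| ≤ L := by
  have h3 : r ^ 4 * ρ ^ 4 / 2 ≤ |2 * w1 * b| := by
    have h4 := abs_add_le (Q0 + 2 * w1 * b) (-(2 * w1 * b))
    rw [add_neg_cancel_right, abs_neg] at h4
    linarith
  have h5 : r ^ 4 * ρ ^ 2 / 8 ≤ |b| := by
    rw [abs_mul, abs_mul, abs_of_pos (by norm_num : (0 : ℝ) < 2)] at h3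
    have h6 : 2 * |w1| * |b| ≤ 2 * (2 * ρ ^ 2) * |b| :=
      mul_le_mul_of_nonneg_right (by linarith) (abs_nonneg _)
    have h7 : ρ ^ 2 * (r ^ 4 * ρ ^ 2 / 8) ≤ ρ ^ 2 * |b| := by linarith
    exact le_of_mul_le_mul_left h7 (by positivity)
  have h8 : |2 * (w1 - w2) * b| ≤ 4 * T := by
    have h9 : 2 * (w1 - w2) * b = (Q0 + 2 * w1 * b) - (Q0 + 2 * w2 * b) := by ring
    rw [h9]
    refine (abs_sub _ _).trans ?_
    linarith
  rw [abs_mul, abs_mul, abs_of_pos (by norm_num : (0 : ℝ) < 2)] at h8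
  have h10 : 2 * |w1 - w2| * (r ^ 4 * ρ ^ 2 / 8) ≤ 2 * |w1 - w2| * |b| :=
    mul_le_mul_of_nonneg_left h5 (by positivity)
  have h11 : (r ^ 4 * ρ ^ 2) * |w1 - w2| ≤ (r ^ 4 * ρ ^ 2) * L := by linarith
  exact le_of_mul_le_mul_left h11 (by positivity)

theorem pf_QSE (hPL1 : T_PL1) : T_QSE := by
  classical
  obtain ⟨C₁, hC1, hPL⟩ := hPL1
  refine ⟨100000 * C₁, by linarith, ?_⟩
  intro ι ρ D K r r' X P η I hc hr hCr hCρ hr' hCr' a ha x hx p hp hxp hQ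
  have hD := hc.one_le_D
  have hD0 : 0 < D := by linarith
  have hC0 : 0 < C₁ := by linarith
  have hDρ : D ≤ ρ := hc.D_le_K.trans hc.K_le
  have hρ : 1 ≤ ρ := hD.trans hDρ
  have hρ0 : 0 < ρ := by linarith
  have hη := hc.eta p hp
  have hD4 : 1 ≤ D ^ 4 := one_le_pow₀ hD
  have hD5 : 1 ≤ D ^ 5 := one_le_pow₀ hD
  have hCD4 : 1 ≤ C₁ * D ^ 4 := one_le_mul_of_one_le_of_one_le hC1 hD4
  have hCD4' : 0 < C₁ * D ^ 4 := by positivity
  have hCD5 : 1 ≤ C₁ * D ^ 5 := one_le_mul_of_one_le_of_one_le hC1 hD5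
  have hr1 : r ≤ 1 := by
    have h1 : 100000 * (C₁ * D ^ 4) * r ≤ 1 := by linarith
    have h2 : r ≤ 100000 * (C₁ * D ^ 4) * r := le_mul_of_one_le_left hr.le (by linarith)
    linarith
  have hr41 : r ^ 4 ≤ r := by
    calc r ^ 4 ≤ r ^ 1 := pow_le_pow_of_le_one hr.le hr1 (by norm_num)
      _ = r := pow_one r
  have hρρ : ρ ≤ ρ ^ 2 := by
    rw [sq]
    exact le_mul_of_one_le_left hρ0.le hρ
  -- `1 ≤ r ρ²`
  have hrρ : 1 ≤ r * ρ ^ 2 := by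
    have h1 : r ^ 4 * ρ ≤ r * ρ ^ 2 := mul_le_mul hr41 hρρ hρ0.le hr.le
    linarith
  obtain ⟨L0, hL0⟩ : ∃ L0 : ℝ, L0 = 2 * ρ ^ 2 / (25 * (C₁ * D ^ 4)) := ⟨_, rfl⟩
  obtain ⟨T, hT⟩ : ∃ T : ℝ, T = r ^ 4 * ρ ^ 4 / (200 * (C₁ * D ^ 4)) := ⟨_, rfl⟩
  have hTL : 16 * T = r ^ 4 * ρ ^ 2 * L0 := by
    rw [hT, hL0]
    field_simp
    ring
  have hrρ4 : 0 < r ^ 4 * ρ ^ 4 := by positivity
  have hT2 : 4 * T ≤ r ^ 4 * ρ ^ 4 := by
    rw [hT]
    have h1 : r ^ 4 * ρ ^ 4 / (200 * (C₁ * D ^ 4)) ≤ r ^ 4 * ρ ^ 4 / 200 := by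
      apply div_le_div_of_nonneg_left hrρ4.le (by norm_num)
      linarith
    linarith
  have hT3 : 200 * (D * ρ ^ 3) ≤ T := by
    rw [hT, le_div_iff₀ (by positivity)]
    have h1 : 100000 * (C₁ * D ^ 5) * ρ ^ 3 ≤ r ^ 4 * ρ * ρ ^ 3 :=
      mul_le_mul_of_nonneg_right (by linarith) (by positivity)
    have h2 : 0 ≤ (C₁ * D ^ 5) * ρ ^ 3 := by positivity
    have h3 : 200 * (D * ρ ^ 3) * (200 * (C₁ * D ^ 4)) = 40000 * ((C₁ * D ^ 5) * ρ ^ 3) := by ring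
    linarith
  have hT4 : r' * ρ ^ 4 ≤ T := by
    rw [hT, le_div_iff₀ (by positivity)]
    have h1 : 100000 * (C₁ * D ^ 4) * r' * ρ ^ 4 ≤ r ^ 4 * ρ ^ 4 :=
      mul_le_mul_of_nonneg_right (by linarith) (by positivity)
    have h2 : 0 ≤ (C₁ * D ^ 4) * r' * ρ ^ 4 := by positivity
    linarith
  -- the sets
  set S := XP X I p with hS
  have hSX : ∀ q ∈ S, q ∈ X ∧ I q p := by
    intro q hq
    rw [hS, XP, Finset.mem_filter] at hq
    exact hq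
  set Y1 := S.filter (fun q => |q.2.2 - x.2.2| < r * ρ ^ 2) with hY1
  set Y2 := S.filter (fun q => |qQ (q - a)| < r' * ρ ^ 4) with hY2
  set G := X.filter (fun q => I q p ∧ r * ρ ^ 2 ≤ |q.2.2 - x.2.2| ∧ r' * ρ ^ 4 ≤ |qQ (q - a)|)
    with hG
  have hcov : S ⊆ (G ∪ Y1) ∪ Y2 := by
    intro q hq
    obtain ⟨h1, h2⟩ := hSX q hq
    simp only [Finset.mem_union]
    by_cases h3 : |q.2.2 - x.2.2| < r * ρ ^ 2
    · exact Or.inl (Or.inr (Finset.mem_filter.2 ⟨hq, h3⟩))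
    · by_cases h4 : |qQ (q - a)| < r' * ρ ^ 4
      · exact Or.inr (Finset.mem_filter.2 ⟨hq, h4⟩)
      · exact Or.inl (Or.inl (Finset.mem_filter.2 ⟨h1, h2, not_lt.1 h3, not_lt.1 h4⟩))
  have hcard : (S.card : ℝ) ≤ G.card + Y1.card + Y2.card := by
    have h1 := Finset.card_le_card hcov
    have h2 := Finset.card_union_le (G ∪ Y1) Y2
    have h3 := Finset.card_union_le G Y1
    have h4 : S.card ≤ G.card + Y1.card + Y2.card := by omega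
    exact_mod_cast h4
  have hsep : ∀ Y ⊆ S, Sep Y := by
    intro Y hY z hz z' hz' hne
    exact hc.sep z (hSX z (hY hz)).1 z' (hSX z' (hY hz')).1 hne
  have hLo : ∀ Y ⊆ S, ∀ z ∈ Y, ∀ z' ∈ Y, ‖Lo (η p) ρ⁻¹ (z - z')‖ ≤ D := by
    intro Y hY z hz z' hz'
    obtain ⟨h1, h2⟩ := hSX z (hY hz)
    obtain ⟨h3, h4⟩ := hSX z' (hY hz')
    exact hc.h0 p hp z h1 z' h3 h2 h4
  have hY1S : Y1 ⊆ S := Finset.filter_subset _ _
  have hY2S : Y2 ⊆ S := Finset.filter_subset _ _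
  -- the first bound
  have hb1 : D * Y1.card ≤ ρ ^ 4 / 4 := by
    have h1 := hPL ρ D (r * ρ ^ 2) x.2.2 (η p) Y1 hρ hD hrρ hη (hsep Y1 hY1S) (hLo Y1 hY1S)
      (fun z hz => (Finset.mem_filter.1 hz).2.le)
    have h2 := mul_le_mul_of_nonneg_left h1 hD0.le
    have h3 : 100000 * (C₁ * D ^ 4) * r * ρ ^ 4 ≤ 1 * ρ ^ 4 :=
      mul_le_mul_of_nonneg_right (by linarith) (by positivity)
    have h4 : 0 ≤ (C₁ * D ^ 4) * r * ρ ^ 4 := by positivity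
    linarith
  -- the second bound
  have hb2 : D * Y2.card ≤ ρ ^ 4 / 4 := by
    rcases Y2.eq_empty_or_nonempty with h0 | ⟨q0, hq0⟩
    · rw [h0, Finset.card_empty]
      simp only [Nat.cast_zero, mul_zero]
      positivity
    · have hval : ∀ q ∈ Y2, |qQ (x - a) + 2 * (q.2.2 - x.2.2) * qB (x - a) (ll (η p))| ≤ 2 * T ∧
          |q.2.2 - x.2.2| ≤ 2 * ρ ^ 2 := by
        intro q hq
        obtain ⟨hqS, hq2⟩ := Finset.mem_filter.1 hq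
        obtain ⟨h1, h2⟩ := hSX q hqS
        have h3 := value hρ hD hDρ hη (hc.ball a ha) (hc.ball x hx) (hc.ball q h1)
          (hc.h0 p hp q h1 x hx h2 hxp)
        refine ⟨?_, w_diff_le' (hc.ball q h1) (hc.ball x hx)⟩
        rw [abs_le] at h3 ⊢
        have h4 := abs_lt.1 hq2
        constructor <;> linarith [h3.1, h3.2, h4.1, h4.2]
      have h1 := hPL ρ D (max 1 L0) q0.2.2 (η p) Y2 hρ hD (le_max_left _ _) hη (hsep Y2 hY2S)
        (hLo Y2 hY2S) (fun z hz => by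
          refine le_trans ?_ (le_max_right _ _)
          have h2 := window hρ0 hr hTL hT2 hQ (hval z hz).1 (hval q0 hq0).1 (hval z hz).2
          have h3 : z.2.2 - q0.2.2 = (z.2.2 - x.2.2) - (q0.2.2 - x.2.2) := by ring
          rw [h3]
          exact h2)
      have h2 := mul_le_mul_of_nonneg_left h1 hD0.le
      have h3 : (C₁ * D ^ 4) * ρ ^ 2 * max 1 L0 ≤ ρ ^ 4 / 4 := by
        rcases max_cases 1 L0 with ⟨h4, -⟩ | ⟨h4, -⟩
        · rw [h4, mul_one]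
          have h5 : 100000 * (C₁ * D ^ 5) ≤ ρ ^ 2 := by
            have h6 : r ^ 4 * ρ ≤ ρ := mul_le_of_le_one_left hρ0.le (by linarith)
            linarith
          have h7 : C₁ * D ^ 4 ≤ C₁ * D ^ 5 := by
            apply mul_le_mul_of_nonneg_left _ hC0.le
            exact pow_le_pow_right₀ hD (by norm_num)
          have h8 : (C₁ * D ^ 4) * ρ ^ 2 ≤ (ρ ^ 2 / 4) * ρ ^ 2 :=
            mul_le_mul_of_nonneg_right (by linarith) (by positivity)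
          linarith
        · rw [h4, hL0]
          have h5 : (C₁ * D ^ 4) * ρ ^ 2 * (2 * ρ ^ 2 / (25 * (C₁ * D ^ 4))) = 2 / 25 * ρ ^ 4 := by
            field_simp
          rw [h5]
          have : 0 ≤ ρ ^ 4 := by positivity
          linarith
      linarith
  have h3 := hc.h3 p hp
  have h4 := mul_le_mul_of_nonneg_left hcard hD0.le
  linarith

end Pool.Agent.H67.EL
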